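import Mathlib

/-!
# The maximal relaxed 5-convex function

`T` is the Takagi type function of the partition `2/5, 1/5, 2/5` of `[0,1]`:
`T (2u/5) = u + (2/5) T u`, `T ((2+u)/5) = 1 + (1/5) T u`, `T ((3+2u)/5) = 1 - u + (2/5) T u`.
We prove that it is relaxed 5-convex and that it dominates every function of the class.
-/

set_option autoImplicit false

namespace Pool.Agent.H27.F5

open Finset

/-! ### Definitions -/

/-- Relaxed `m`-convexity on `[0,1]`; the points of the sequence are `x 0 ≤ ... ≤ x (m-1)`. -/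
def RelaxedConvex (m : ℕ) (f : ℝ → ℝ) : Prop :=
  ∀ x : ℕ → ℝ, (∀ i, i < m → 0 ≤ x i ∧ x i ≤ 1) → (∀ i j, i ≤ j → j < m → x i ≤ x j) →
    f ((∑ i ∈ range m, x i) / m) ≤ (∑ i ∈ range m, f (x i)) / m + (x (m - 1) - x 0)

/-- The class `𝓕_m` of relaxed convex functions, bounded above on `[0,1]`. -/
def InClass (m : ℕ) (f : ℝ → ℝ) : Prop :=
  f 0 ≤ 0 ∧ f 1 ≤ 0 ∧ (∃ M : ℝ, ∀ x : ℝ, 0 ≤ x → x ≤ 1 → f x ≤ M) ∧ RelaxedConvex m f

/-- The maximal function `F_m`. -/
noncomputable def F (m : ℕ) (x : ℝ) : ℝ := sSup {y : ℝ | ∃ f : ℝ → ℝ, InClass m f ∧ y = f x}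

/-- The length of the cell of `x` in the partition `0 < 2/5 < 3/5 < 1`. -/
noncomputable def rr (x : ℝ) : ℝ := if x < 2 / 5 then 2 / 5 else if x ≤ 3 / 5 then 1 / 5 else 2 / 5

/-- The piecewise linear map that sends each cell of the partition onto `[0,1]`. -/
noncomputable def Φ (x : ℝ) : ℝ :=
  if x < 2 / 5 then 5 / 2 * x else if x ≤ 3 / 5 then 5 * x - 2 else (5 * x - 3) / 2

/-- The trapezoid `min (5x/2) 1 (5(1-x)/2)`. -/
noncomputable def tr (x : ℝ) : ℝ := min (min (5 / 2 * x) 1) (5 / 2 * (1 - x))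

/-- The explicit function: `T x = ∑ k, rr x * rr (Φ x) * ... * rr (Φ^(k-1) x) * tr (Φ^k x)`. -/
noncomputable def T (x : ℝ) : ℝ := ∑' k : ℕ, (∏ i ∈ range k, rr (Φ^[i] x)) * tr (Φ^[k] x)

/-! ### Elementary properties of the pieces -/

lemma rr_nonneg (x : ℝ) : 0 ≤ rr x := by unfold rr; split_ifs <;> norm_num

lemma rr_le (x : ℝ) : rr x ≤ 2 / 5 := by unfold rr; split_ifs <;> norm_num

lemma Φ_mem {x : ℝ} (h0 : 0 ≤ x) (h1 : x ≤ 1) : 0 ≤ Φ x ∧ Φ x ≤ 1 := by
  unfold Φ; split_ifs with h h' <;> constructor <;> linarith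

lemma Φ_iter_mem {x : ℝ} (h0 : 0 ≤ x) (h1 : x ≤ 1) (k : ℕ) :
    0 ≤ Φ^[k] x ∧ Φ^[k] x ≤ 1 := by
  induction k with
  | zero => exact ⟨h0, h1⟩
  | succ k ih => rw [Function.iterate_succ_apply']; exact Φ_mem ih.1 ih.2

lemma tr_nonneg {x : ℝ} (h0 : 0 ≤ x) (h1 : x ≤ 1) : 0 ≤ tr x := by
  unfold tr; refine le_min (le_min ?_ ?_) ?_ <;> linarith

lemma tr_le (x : ℝ) : tr x ≤ 1 := (min_le_left _ _).trans (min_le_right _ _)

lemma prod_nonneg' (x : ℝ) (k : ℕ) : 0 ≤ ∏ i ∈ range k, rr (Φ^[i] x) :=
  prod_nonneg fun _ _ => rr_nonneg _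

lemma prod_le (x : ℝ) (k : ℕ) : ∏ i ∈ range k, rr (Φ^[i] x) ≤ (2 / 5) ^ k := by
  calc ∏ i ∈ range k, rr (Φ^[i] x) ≤ ∏ _i ∈ range k, (2 / 5 : ℝ) :=
        prod_le_prod (fun _ _ => rr_nonneg _) fun _ _ => rr_le _
    _ = (2 / 5) ^ k := by rw [prod_const, card_range]

lemma term_nonneg {x : ℝ} (h0 : 0 ≤ x) (h1 : x ≤ 1) (k : ℕ) :
    0 ≤ (∏ i ∈ range k, rr (Φ^[i] x)) * tr (Φ^[k] x) :=
  mul_nonneg (prod_nonneg' x k) (tr_nonneg (Φ_iter_mem h0 h1 k).1 (Φ_iter_mem h0 h1 k).2)

lemma term_le {x : ℝ} (h0 : 0 ≤ x) (h1 : x ≤ 1) (k : ℕ) :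
    (∏ i ∈ range k, rr (Φ^[i] x)) * tr (Φ^[k] x) ≤ (2 / 5) ^ k := by
  calc _ ≤ (2 / 5 : ℝ) ^ k * 1 :=
        mul_le_mul (prod_le x k) (tr_le _)
          (tr_nonneg (Φ_iter_mem h0 h1 k).1 (Φ_iter_mem h0 h1 k).2) (by positivity)
    _ = _ := by ring

lemma summable_T {x : ℝ} (h0 : 0 ≤ x) (h1 : x ≤ 1) :
    Summable fun k : ℕ => (∏ i ∈ range k, rr (Φ^[i] x)) * tr (Φ^[k] x) :=
  Summable.of_nonneg_of_le (term_nonneg h0 h1) (term_le h0 h1)
    (summable_geometric_of_lt_one (by norm_num) (by norm_num))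

lemma T_nonneg {x : ℝ} (h0 : 0 ≤ x) (h1 : x ≤ 1) : 0 ≤ T x := tsum_nonneg (term_nonneg h0 h1)

lemma T_le_two {x : ℝ} (h0 : 0 ≤ x) (h1 : x ≤ 1) : T x ≤ 2 := by
  have h := (summable_T h0 h1).tsum_le_tsum (term_le h0 h1)
    (summable_geometric_of_lt_one (by norm_num) (by norm_num))
  rw [tsum_geometric_of_lt_one (by norm_num) (by norm_num)] at h
  unfold T
  refine h.trans (by norm_num)

/-- The functional equation. -/
lemma T_eq {x : ℝ} (h0 : 0 ≤ x) (h1 : x ≤ 1) : T x = tr x + rr x * T (Φ x) := by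
  unfold T
  rw [(summable_T h0 h1).tsum_eq_zero_add]
  congr 1
  · simp
  · rw [← tsum_mul_left]
    congr 1
    ext k
    rw [prod_range_succ']
    simp only [Function.iterate_succ_apply, Function.iterate_zero, id]
    ring

lemma rr_symm (x : ℝ) : rr (1 - x) = rr x := by
  unfold rr
  rcases lt_or_ge x (2 / 5) with h | h
  · rw [if_pos h, if_neg (by linarith), if_neg (by linarith)]
  · rcases le_or_gt x (3 / 5) with h' | h'
    · rw [if_neg (by linarith), if_pos (by linarith), if_neg (by linarith), if_pos h']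
    · rw [if_pos (by linarith), if_neg (by linarith), if_neg (by linarith)]

lemma Φ_symm (x : ℝ) : Φ (1 - x) = 1 - Φ x := by
  unfold Φ
  rcases lt_or_ge x (2 / 5) with h | h
  · rw [if_pos h, if_neg (by linarith), if_neg (by linarith)]; ring
  · rcases le_or_gt x (3 / 5) with h' | h'
    · rw [if_neg (by linarith), if_pos (by linarith), if_neg (by linarith), if_pos h']; ring
    · rw [if_pos (by linarith), if_neg (by linarith), if_neg (by linarith)]; ring

lemma Φ_iter_symm (x : ℝ) (k : ℕ) : Φ^[k] (1 - x) = 1 - Φ^[k] x := by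
  induction k with
  | zero => rfl
  | succ k ih => rw [Function.iterate_succ_apply', Function.iterate_succ_apply', ih, Φ_symm]

lemma tr_symm (x : ℝ) : tr (1 - x) = tr x := by
  unfold tr
  rw [show 1 - (1 - x) = x by ring, min_assoc, min_assoc, min_comm 1 (5 / 2 * x),
    min_comm 1 (5 / 2 * (1 - x)), ← min_assoc, ← min_assoc, min_comm (5 / 2 * (1 - x))]

lemma T_symm (x : ℝ) : T (1 - x) = T x := by
  unfold T
  congr 1
  ext k
  rw [Φ_iter_symm, tr_symm]
  congr 1
  exact prod_congr rfl fun i _ => by rw [Φ_iter_symm, rr_symm]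

lemma T_zero : T 0 = 0 := by
  have h := T_eq le_rfl zero_le_one
  have h1 : tr 0 = 0 := by unfold tr; norm_num
  have h2 : rr 0 = 2 / 5 := by unfold rr; norm_num
  have h3 : Φ 0 = 0 := by unfold Φ; norm_num
  rw [h1, h2, h3] at h
  linarith

lemma T_one : T 1 = 0 := by rw [← T_zero, ← T_symm 1]; norm_num

/-- The middle cell. -/
lemma TM {u : ℝ} (h0 : 0 ≤ u) (h1 : u ≤ 1) : T ((2 + u) / 5) = 1 + T u / 5 := by
  rw [T_eq (by linarith) (by linarith)]
  have e1 : tr ((2 + u) / 5) = 1 := by
    unfold tr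
    rw [min_eq_right (by linarith : (1 : ℝ) ≤ 5 / 2 * ((2 + u) / 5)), min_eq_left (by linarith)]
  have e2 : rr ((2 + u) / 5) = 1 / 5 := by
    unfold rr; rw [if_neg (by linarith), if_pos (by linarith)]
  have e3 : Φ ((2 + u) / 5) = u := by
    unfold Φ; rw [if_neg (by linarith), if_pos (by linarith)]; ring
  rw [e1, e2, e3]; ring

/-- The left cell. -/
lemma TL {u : ℝ} (h0 : 0 ≤ u) (h1 : u ≤ 1) : T (2 / 5 * u) = u + 2 / 5 * T u := by
  rcases h1.lt_or_eq with h | h
  · rw [T_eq (by linarith) (by linarith)]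
    have e1 : tr (2 / 5 * u) = u := by
      unfold tr
      rw [min_eq_left (by linarith : 5 / 2 * (2 / 5 * u) ≤ 1), min_eq_left (by linarith)]; ring
    have e2 : rr (2 / 5 * u) = 2 / 5 := by unfold rr; rw [if_pos (by linarith)]
    have e3 : Φ (2 / 5 * u) = u := by unfold Φ; rw [if_pos (by linarith)]; ring
    rw [e1, e2, e3]
  · subst h
    have := TM le_rfl zero_le_one
    rw [T_zero] at this
    rw [T_one, show (2 : ℝ) / 5 * 1 = (2 + 0) / 5 by norm_num, this]; norm_num

/-- The right cell. -/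
lemma TR {u : ℝ} (h0 : 0 ≤ u) (h1 : u ≤ 1) : T ((3 + 2 * u) / 5) = 1 - u + 2 / 5 * T u := by
  have := TL (u := 1 - u) (by linarith) (by linarith)
  rw [T_symm] at this
  rw [← T_symm, ← this]; congr 1; ring

/-- Every point of `[0,1]` lies in one of the three cells. -/
lemma cells {x : ℝ} (h0 : 0 ≤ x) (h1 : x ≤ 1) :
    (∃ u : ℝ, 0 ≤ u ∧ u ≤ 1 ∧ x = 2 / 5 * u) ∨ (∃ u : ℝ, 0 ≤ u ∧ u ≤ 1 ∧ x = (2 + u) / 5) ∨
      ∃ u : ℝ, 0 ≤ u ∧ u ≤ 1 ∧ x = (3 + 2 * u) / 5 := by
  rcases le_total x (2 / 5) with h | h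
  · exact Or.inl ⟨5 / 2 * x, by linarith, by linarith, by ring⟩
  · rcases le_total x (3 / 5) with h' | h'
    · exact Or.inr (Or.inl ⟨5 * x - 2, by linarith, by linarith, by ring⟩)
    · exact Or.inr (Or.inr ⟨(5 * x - 3) / 2, by linarith, by linarith, by ring⟩)

/-! ### The contraction principle -/

/-- If a bounded quantity satisfies `(∀ a, D a ≤ c) → ∀ a, D a ≤ l c` for all `c ≥ 0`, with
`l < 1`, then it is nonpositive. -/
lemma contract {α : Type*} {D : α → ℝ} {M l : ℝ} (hM : ∀ a, D a ≤ M) (hl0 : 0 ≤ l) (hl1 : l < 1)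
    (h : ∀ c : ℝ, 0 ≤ c → (∀ a, D a ≤ c) → ∀ a, D a ≤ l * c) : ∀ a, D a ≤ 0 := by
  have key : ∀ n : ℕ, ∀ a, D a ≤ l ^ n * max M 0 := by
    intro n
    induction n with
    | zero => intro a; simpa using Or.inl (hM a)
    | succ n ih =>
      intro a
      have := h (l ^ n * max M 0) (by positivity) ih a
      calc D a ≤ l * (l ^ n * max M 0) := this
        _ = l ^ (n + 1) * max M 0 := by ring
  intro a
  have hlim : Filter.Tendsto (fun n : ℕ => l ^ n * max M 0) Filter.atTop (nhds (0 * max M 0)) :=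
    (tendsto_pow_atTop_nhds_zero_of_lt_one hl0 hl1).mul_const _
  rw [zero_mul] at hlim
  exact ge_of_tendsto' hlim fun n => key n a

/-! ### The upper bound `5/4` -/

/-- The unit interval, as a type. -/
abbrev I : Type := Set.Icc (0 : ℝ) 1

lemma T_le : ∀ {x : ℝ}, 0 ≤ x → x ≤ 1 → T x ≤ 5 / 4 := by
  have key : ∀ a : I, T a - 5 / 4 ≤ 0 := by
    apply contract (M := 2) (l := 2 / 5) _ (by norm_num) (by norm_num)
    · intro c hc h a
      have h' : ∀ {x : ℝ}, 0 ≤ x → x ≤ 1 → T x ≤ 5 / 4 + c := fun {x} h0 h1 => by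
        have := h ⟨x, h0, h1⟩; simp only at this; linarith
      have hL : ∀ {u : ℝ}, 0 ≤ u → u ≤ 1 → T (2 / 5 * u) ≤ 5 / 4 + 2 / 5 * c := by
        intro u u0 u1
        rw [TL u0 u1]
        rcases le_total u (3 / 5) with hu | hu
        · have := h' u0 u1; linarith
        · obtain ⟨s, hs⟩ : ∃ s : ℝ, s = (5 * u - 3) / 2 := ⟨_, rfl⟩
          have hu' : u = (3 + 2 * s) / 5 := by rw [hs]; ring
          have s0 : 0 ≤ s := by linarith
          have s1 : s ≤ 1 := by linarith
          have := h' s0 s1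
          rw [hu', TR s0 s1]; linarith
      have : T a ≤ 5 / 4 + 2 / 5 * c := by
        rcases cells a.2.1 a.2.2 with ⟨u, u0, u1, hu⟩ | ⟨u, u0, u1, hu⟩ | ⟨u, u0, u1, hu⟩
        · rw [hu]; exact hL u0 u1
        · rw [hu, TM u0 u1]; have := h' u0 u1; linarith
        · rw [hu, ← T_symm, show 1 - (3 + 2 * u) / 5 = 2 / 5 * (1 - u) by ring]
          exact hL (by linarith) (by linarith)
      linarith
    · intro a
      have := T_le_two a.2.1 a.2.2
      linarith
  intro x h0 h1
  have := key ⟨x, h0, h1⟩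
  simp only at this; linarith

/-! ### Halving -/

lemma T_half : ∀ {z : ℝ}, 0 ≤ z → z ≤ 1 → T (z / 2) ≤ T z / 2 + 5 / 4 * z := by
  have key : ∀ a : I, T ((a : ℝ) / 2) - T a / 2 - 5 / 4 * a ≤ 0 := by
    apply contract (M := 2) (l := 2 / 5) _ (by norm_num) (by norm_num)
    · intro c hc h a
      have h' : ∀ {x : ℝ}, 0 ≤ x → x ≤ 1 → T (x / 2) ≤ T x / 2 + 5 / 4 * x + c :=
        fun {x} h0 h1 => by have := h ⟨x, h0, h1⟩; simp only at this; linarith
      rcases cells a.2.1 a.2.2 with ⟨u, u0, u1, hu⟩ | ⟨u, u0, u1, hu⟩ | ⟨u, u0, u1, hu⟩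
      · rw [hu, show 2 / 5 * u / 2 = 2 / 5 * (u / 2) by ring, TL (by linarith) (by linarith),
          TL u0 u1]
        have := h' u0 u1; linarith
      · rw [hu, show (2 + u) / 5 / 2 = 2 / 5 * ((2 + u) / 4) by ring,
          TL (by linarith) (by linarith), TM u0 u1]
        have h1 := T_le (x := (2 + u) / 4) (by linarith) (by linarith)
        have h2 := T_nonneg u0 u1
        linarith
      · rw [hu, TR u0 u1]
        have h2 := T_nonneg u0 u1
        rcases le_total u (1 / 2) with hh | hh
        · rw [show (3 + 2 * u) / 5 / 2 = 2 / 5 * ((3 + 2 * u) / 4) by ring,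
            TL (by linarith) (by linarith)]
          have e : T ((3 + 2 * u) / 4) = T ((1 / 2 - u) / 2) := by
            rw [← T_symm]; congr 1; ring
          rw [e]
          have h3 := h' (x := 1 / 2 - u) (by linarith) (by linarith)
          have h4 := T_le (x := 1 / 2 - u) (by linarith) (by linarith)
          linarith
        · rw [show (3 + 2 * u) / 5 / 2 = (2 + (u - 1 / 2)) / 5 by ring,
            TM (by linarith) (by linarith)]
          have h4 := T_le (x := u - 1 / 2) (by linarith) (by linarith)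
          linarith
    · intro a
      have h1 := T_le (x := (a : ℝ) / 2) (by linarith [a.2.1]) (by linarith [a.2.1, a.2.2])
      have h2 := T_nonneg a.2.1 a.2.2
      have h3 := a.2.1
      linarith
  intro z h0 h1
  have := key ⟨z, h0, h1⟩
  simp only at this; linarith

/-! ### Subadditivity -/

/-- Pairs with sum at most one. -/
abbrev P2 : Type := {p : ℝ × ℝ // 0 ≤ p.1 ∧ 0 ≤ p.2 ∧ p.1 + p.2 ≤ 1}

lemma T_add : ∀ {a b : ℝ}, 0 ≤ a → 0 ≤ b → a + b ≤ 1 → T (a + b) ≤ T a + T b := by
  have key : ∀ p : P2, T (p.1.1 + p.1.2) - T p.1.1 - T p.1.2 ≤ 0 := by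
    apply contract (M := 2) (l := 3 / 5) _ (by norm_num) (by norm_num)
    · intro c hc h
      have h' : ∀ {a b : ℝ}, 0 ≤ a → 0 ≤ b → a + b ≤ 1 → T (a + b) ≤ T a + T b + c :=
        fun {a b} h0 h1 h2 => by have := h ⟨(a, b), h0, h1, h2⟩; simp only at this; linarith
      have sub' : ∀ {a b : ℝ}, 0 ≤ b → b ≤ a → a ≤ 1 → T (a - b) ≤ T a + T b + c := by
        intro a b hb hba ha
        have := h' (a := 1 - a) (b := b) (by linarith) hb (by linarith)
        rw [T_symm] at this
        rw [← T_symm (a - b), show 1 - (a - b) = 1 - a + b by ring]; exact this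
      -- first summand in the left cell
      have main : ∀ {a b : ℝ}, 0 ≤ a → a ≤ 2 / 5 → 0 ≤ b → a + b ≤ 1 →
          T (a + b) ≤ T a + T b + 3 / 5 * c := by
        intro a b ha0 ha hb0 hab
        obtain ⟨u, hu⟩ : ∃ u : ℝ, u = 5 / 2 * a := ⟨_, rfl⟩
        have ha' : a = 2 / 5 * u := by rw [hu]; ring
        have u0 : 0 ≤ u := by linarith
        have u1 : u ≤ 1 := by linarith
        have Tu := T_nonneg u0 u1
        rcases cells hb0 (by linarith : b ≤ 1) with ⟨v, v0, v1, hv⟩ | ⟨v, v0, v1, hv⟩ | ⟨v, v0, v1, hv⟩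
        · have Tv := T_nonneg v0 v1
          rw [ha', hv, TL u0 u1, TL v0 v1]
          rcases le_total (u + v) 1 with h1 | h1
          · rw [show 2 / 5 * u + 2 / 5 * v = 2 / 5 * (u + v) by ring, TL (by linarith) h1]
            have := h' u0 v0 h1
            linarith
          · rcases le_total (u + v) (3 / 2) with h2 | h2
            · obtain ⟨w, hw⟩ : ∃ w : ℝ, w = u + v - 1 := ⟨_, rfl⟩
              have w0 : 0 ≤ w := by linarith
              have w1 : w ≤ 1 / 2 := by linarith
              rw [show 2 / 5 * u + 2 / 5 * v = (2 + (w + w)) / 5 by rw [hw]; ring,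
                TM (by linarith) (by linarith)]
              have e1 := h' w0 w0 (by linarith)
              have e2 := sub' (a := u) (b := 1 - v) (by linarith) (by linarith) u1
              rw [T_symm, show u - (1 - v) = w by rw [hw]; ring] at e2
              linarith
            · rw [show 2 / 5 * u + 2 / 5 * v = (3 + 2 * (u + v - 3 / 2)) / 5 by ring,
                TR (by linarith) (by linarith)]
              have := T_le (x := u + v - 3 / 2) (by linarith) (by linarith)
              linarith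
        · have Tv := T_nonneg v0 v1
          rw [ha', hv, TL u0 u1, TM v0 v1]
          rcases le_total (2 * u + v) 1 with h1 | h1
          · rw [show 2 / 5 * u + (2 + v) / 5 = (2 + (u + (u + v))) / 5 by ring,
              TM (by linarith) (by linarith)]
            have e1 := h' (a := u) (b := u + v) u0 (by linarith) (by linarith)
            have e2 := h' (a := u) (b := v) u0 v0 (by linarith)
            linarith
          · have e0 : 2 / 5 * u + (2 + v) / 5 = (3 + 2 * (u - (1 - v) / 2)) / 5 := by ring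
            rw [e0, TR (by linarith) (by linarith)]
            have e1 := sub' (a := u) (b := (1 - v) / 2) (by linarith) (by linarith) u1
            have e2 := T_half (z := 1 - v) (by linarith) (by linarith)
            rw [T_symm] at e2
            linarith
        · have Tv := T_nonneg v0 v1
          rw [ha', hv, TL u0 u1, TR v0 v1]
          rw [ha', hv] at hab
          have e0 : 2 / 5 * u + (3 + 2 * v) / 5 = (3 + 2 * (u + v)) / 5 := by ring
          rw [e0, TR (by linarith) (by linarith)]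
          have := h' u0 v0 (by linarith)
          linarith
      rintro ⟨⟨a, b⟩, ha, hb, hab⟩
      simp only at ha hb hab ⊢
      rcases le_total a (2 / 5) with h1 | h1
      · have := main ha h1 hb hab; linarith
      · rcases le_total b (2 / 5) with h2 | h2
        · have := main hb h2 ha (by linarith); rw [add_comm b a] at this; linarith
        · have hM : ∀ {x : ℝ}, 2 / 5 ≤ x → x ≤ 3 / 5 → 1 ≤ T x := by
            intro x hx hx'
            have e := TM (u := 5 * x - 2) (by linarith) (by linarith)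
            have e2 := T_nonneg (x := 5 * x - 2) (by linarith) (by linarith)
            rw [show (2 + (5 * x - 2)) / 5 = x by ring] at e
            linarith
          have e1 := hM h1 (by linarith)
          have e2 := hM h2 (by linarith)
          have e3 := T_le (x := a + b) (by linarith) hab
          linarith
    · rintro ⟨⟨a, b⟩, ha, hb, hab⟩
      simp only at ha hb hab ⊢
      have h1 := T_le (x := a + b) (by linarith) hab
      have h2 := T_nonneg ha (by linarith)
      have h3 := T_nonneg hb (by linarith)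
      linarith
  intro a b ha hb hab
  have := key ⟨(a, b), ha, hb, hab⟩
  simp only at this; linarith

lemma T_sub {a b : ℝ} (hb : 0 ≤ b) (hba : b ≤ a) (ha : a ≤ 1) : T (a - b) ≤ T a + T b := by
  have := T_add (a := 1 - a) (b := b) (by linarith) hb (by linarith)
  rw [T_symm] at this
  rw [← T_symm (a - b), show 1 - (a - b) = 1 - a + b by ring]; exact this

/-! ### The midpoint inequality -/

/-- Ordered pairs in the unit interval. -/
abbrev Q2 : Type := {p : ℝ × ℝ // 0 ≤ p.1 ∧ p.1 ≤ p.2 ∧ p.2 ≤ 1}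

lemma T_mid : ∀ {y z : ℝ}, 0 ≤ y → y ≤ z → z ≤ 1 →
    T ((y + z) / 2) ≤ (T y + T z) / 2 + 5 / 4 * (z - y) := by
  have key : ∀ p : Q2, T ((p.1.1 + p.1.2) / 2) - (T p.1.1 + T p.1.2) / 2
      - 5 / 4 * (p.1.2 - p.1.1) ≤ 0 := by
    apply contract (M := 2) (l := 2 / 5) _ (by norm_num) (by norm_num)
    · intro c hc h
      have h' : ∀ {y z : ℝ}, 0 ≤ y → y ≤ z → z ≤ 1 →
          T ((y + z) / 2) ≤ (T y + T z) / 2 + 5 / 4 * (z - y) + c :=
        fun {a b} h0 h1 h2 => by have := h ⟨(a, b), h0, h1, h2⟩; simp only at this; linarith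
      -- left-middle
      have LM : ∀ {u v : ℝ}, 0 ≤ u → u ≤ 1 → 0 ≤ v → v ≤ 1 →
          T ((2 / 5 * u + (2 + v) / 5) / 2) ≤ (T (2 / 5 * u) + T ((2 + v) / 5)) / 2
            + 5 / 4 * ((2 + v) / 5 - 2 / 5 * u) + 2 / 5 * c := by
        intro u v u0 u1 v0 v1
        have Tu := T_nonneg u0 u1
        have Tv := T_nonneg v0 v1
        have hv := T_half v0 v1
        rw [TL u0 u1, TM v0 v1]
        rcases le_total (2 * u + v) 2 with h1 | h1
        · rw [show (2 / 5 * u + (2 + v) / 5) / 2 = 2 / 5 * ((u + v / 2 + 1) / 2) by ring,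
            TL (by linarith) (by linarith)]
          have e1 := h' (y := u + v / 2) (z := 1) (by linarith) (by linarith) le_rfl
          rw [T_one] at e1
          have e2 := T_add (a := u) (b := v / 2) u0 (by linarith) (by linarith)
          linarith
        · rw [show (2 / 5 * u + (2 + v) / 5) / 2 = (2 + (u - (1 - v / 2))) / 5 by ring,
            TM (by linarith) (by linarith)]
          have e1 := T_sub (a := u) (b := 1 - v / 2) (by linarith) (by linarith) u1
          rw [T_symm] at e1
          linarith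
      rintro ⟨⟨y, z⟩, hy, hyz, hz⟩
      simp only at hy hyz hz ⊢
      rcases le_total z (2 / 5) with h1 | h1
      · obtain ⟨u, hu⟩ : ∃ u : ℝ, u = 5 / 2 * y := ⟨_, rfl⟩
        obtain ⟨v, hv⟩ : ∃ v : ℝ, v = 5 / 2 * z := ⟨_, rfl⟩
        have e1 : y = 2 / 5 * u := by rw [hu]; ring
        have e2 : z = 2 / 5 * v := by rw [hv]; ring
        rw [e1, e2, TL (by linarith) (by linarith), TL (by linarith) (by linarith),
          show (2 / 5 * u + 2 / 5 * v) / 2 = 2 / 5 * ((u + v) / 2) by ring,
          TL (by linarith) (by linarith)]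
        have := h' (y := u) (z := v) (by linarith) (by linarith) (by linarith)
        linarith
      · rcases le_total (3 / 5) y with h2 | h2
        · obtain ⟨u, hu⟩ : ∃ u : ℝ, u = (5 * y - 3) / 2 := ⟨_, rfl⟩
          obtain ⟨v, hv⟩ : ∃ v : ℝ, v = (5 * z - 3) / 2 := ⟨_, rfl⟩
          have e1 : y = (3 + 2 * u) / 5 := by rw [hu]; ring
          have e2 : z = (3 + 2 * v) / 5 := by rw [hv]; ring
          rw [e1, e2, TR (by linarith) (by linarith), TR (by linarith) (by linarith),
            show ((3 + 2 * u) / 5 + (3 + 2 * v) / 5) / 2 = (3 + 2 * ((u + v) / 2)) / 5 by ring,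
            TR (by linarith) (by linarith)]
          have := h' (y := u) (z := v) (by linarith) (by linarith) (by linarith)
          linarith
        · rcases le_total y (2 / 5) with h3 | h3
          · obtain ⟨u, hu⟩ : ∃ u : ℝ, u = 5 / 2 * y := ⟨_, rfl⟩
            have e1 : y = 2 / 5 * u := by rw [hu]; ring
            rcases le_total z (3 / 5) with h4 | h4
            · obtain ⟨v, hv⟩ : ∃ v : ℝ, v = 5 * z - 2 := ⟨_, rfl⟩
              have e2 : z = (2 + v) / 5 := by rw [hv]; ring
              have := LM (u := u) (v := v) (by linarith) (by linarith) (by linarith) (by linarith)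
              rw [e1, e2]; linarith
            · obtain ⟨v, hv⟩ : ∃ v : ℝ, v = (5 * z - 3) / 2 := ⟨_, rfl⟩
              have e2 : z = (3 + 2 * v) / 5 := by rw [hv]; ring
              have f1 := T_le (x := (y + z) / 2) (by linarith) (by linarith)
              have f2 : T y = u + 2 / 5 * T u := by rw [e1]; exact TL (by linarith) (by linarith)
              have f3 : T z = 1 - v + 2 / 5 * T v := by
                rw [e2]; exact TR (by linarith) (by linarith)
              have f4 := T_nonneg (x := u) (by linarith) (by linarith)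
              have f5 := T_nonneg (x := v) (by linarith) (by linarith)
              rw [f2, f3]; linarith
          · rcases le_total z (3 / 5) with h4 | h4
            · obtain ⟨u, hu⟩ : ∃ u : ℝ, u = 5 * y - 2 := ⟨_, rfl⟩
              obtain ⟨v, hv⟩ : ∃ v : ℝ, v = 5 * z - 2 := ⟨_, rfl⟩
              have e1 : y = (2 + u) / 5 := by rw [hu]; ring
              have e2 : z = (2 + v) / 5 := by rw [hv]; ring
              rw [e1, e2, TM (by linarith) (by linarith), TM (by linarith) (by linarith),
                show ((2 + u) / 5 + (2 + v) / 5) / 2 = (2 + (u + v) / 2) / 5 by ring,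
                TM (by linarith) (by linarith)]
              have := h' (y := u) (z := v) (by linarith) (by linarith) (by linarith)
              linarith
            · -- reflect
              obtain ⟨u, hu⟩ : ∃ u : ℝ, u = 5 / 2 * (1 - z) := ⟨_, rfl⟩
              obtain ⟨v, hv⟩ : ∃ v : ℝ, v = 5 * (1 - y) - 2 := ⟨_, rfl⟩
              have e1 : 2 / 5 * u = 1 - z := by rw [hu]; ring
              have e2 : (2 + v) / 5 = 1 - y := by rw [hv]; ring
              have := LM (u := u) (v := v) (by linarith) (by linarith) (by linarith) (by linarith)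
              rw [e1, e2, T_symm, T_symm, show (1 - z + (1 - y)) / 2 = 1 - (y + z) / 2 by ring,
                T_symm] at this
              linarith
    · rintro ⟨⟨y, z⟩, hy, hyz, hz⟩
      simp only at hy hyz hz ⊢
      have h1 := T_le (x := (y + z) / 2) (by linarith) (by linarith)
      have h2 := T_nonneg hy (by linarith)
      have h3 := T_nonneg (by linarith) hz
      linarith
  intro y z hy hyz hz
  have := key ⟨(y, z), hy, hyz, hz⟩
  simp only at this; linarith

/-! ### Adding a fifth -/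

/-- Pairs `(e, z)` with `z ≥ 2e/5` and `z + e/5 ≤ 1`. -/
abbrev R2 : Type := {p : ℝ × ℝ // 0 ≤ p.1 ∧ p.1 ≤ 1 ∧ 2 / 5 * p.1 ≤ p.2 ∧ p.2 + p.1 / 5 ≤ 1}

lemma T_fifth : ∀ {e z : ℝ}, 0 ≤ e → e ≤ 1 → 2 / 5 * e ≤ z → z + e / 5 ≤ 1 →
    T (z + e / 5) ≤ T z + T e / 5 := by
  have key : ∀ p : R2, T (p.1.2 + p.1.1 / 5) - T p.1.2 - T p.1.1 / 5 ≤ 0 := by
    apply contract (M := 2) (l := 4 / 5) _ (by norm_num) (by norm_num)
    · intro c hc h
      have h' : ∀ {e z : ℝ}, 0 ≤ e → e ≤ 1 → 2 / 5 * e ≤ z → z + e / 5 ≤ 1 →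
          T (z + e / 5) ≤ T z + T e / 5 + c :=
        fun {a b} h0 h1 h2 h3 => by
          have := h ⟨(a, b), h0, h1, h2, h3⟩; simp only at this; linarith
      have hm : ∀ {e z : ℝ}, 0 ≤ e → e ≤ 1 → 2 / 5 * e ≤ 1 - z → e / 5 ≤ z →
          T (z - e / 5) ≤ T z + T e / 5 + c := by
        intro e z h0 h1 h2 h3
        have := h' (e := e) (z := 1 - z) h0 h1 h2 (by linarith)
        rw [T_symm, show 1 - z + e / 5 = 1 - (z - e / 5) by ring, T_symm] at this
        exact this
      rintro ⟨⟨e, z⟩, he0, he1, hez, hz⟩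
      simp only at he0 he1 hez hz ⊢
      have Te := T_nonneg he0 he1
      rcases le_total (3 / 5) z with hR | hR
      · -- z in the right cell
        obtain ⟨v, hv⟩ : ∃ v : ℝ, v = (5 * z - 3) / 2 := ⟨_, rfl⟩
        have ez : z = (3 + 2 * v) / 5 := by rw [hv]; ring
        rw [ez, show (3 + 2 * v) / 5 + e / 5 = (3 + 2 * (v + e / 2)) / 5 by ring,
          TR (by linarith) (by linarith), TR (by linarith) (by linarith)]
        have e1 := T_add (a := v) (b := e / 2) (by linarith) (by linarith) (by linarith)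
        have e2 := T_half he0 he1
        linarith
      rcases le_total (2 / 5) z with hM | hM
      · -- z in the middle cell
        obtain ⟨v, hv⟩ : ∃ v : ℝ, v = 5 * z - 2 := ⟨_, rfl⟩
        have ez : z = (2 + v) / 5 := by rw [hv]; ring
        have v0 : 0 ≤ v := by linarith
        have v1 : v ≤ 1 := by linarith
        rw [ez, TM v0 v1]
        rcases le_total (v + e) 1 with h1 | h1
        · rw [show (2 + v) / 5 + e / 5 = (2 + (v + e)) / 5 by ring, TM (by linarith) h1]
          have := T_add v0 he0 h1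
          linarith
        · rw [show (2 + v) / 5 + e / 5 = (3 + 2 * ((v + e - 1) / 2)) / 5 by ring,
            TR (by linarith) (by linarith)]
          have e1 := T_half (z := v + e - 1) (by linarith) (by linarith)
          have e2 := T_sub (a := v) (b := 1 - e) (by linarith) (by linarith) v1
          rw [T_symm, show v - (1 - e) = v + e - 1 by ring] at e2
          linarith
      -- z in the left cell
      obtain ⟨v, hv⟩ : ∃ v : ℝ, v = 5 / 2 * z := ⟨_, rfl⟩
      have ez : z = 2 / 5 * v := by rw [hv]; ring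
      have v0 : 0 ≤ v := by linarith
      have v1 : v ≤ 1 := by linarith
      have ev : e ≤ v := by linarith
      rw [ez, TL v0 v1]
      rcases le_total (v + e / 2) 1 with h1 | h1
      · rw [show 2 / 5 * v + e / 5 = 2 / 5 * (v + e / 2) by ring, TL (by linarith) h1]
        suffices T (v + e / 2) ≤ T v + T e / 2 - 5 / 4 * e + c by linarith
        rcases cells he0 he1 with ⟨f, f0, f1, hf⟩ | ⟨f, f0, f1, hf⟩ | ⟨f, f0, f1, hf⟩
        · have Ef : T e = f + 2 / 5 * T f := by rw [hf]; exact TL f0 f1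
          have := h' (e := f) (z := v) f0 f1 (by linarith) (by linarith)
          rw [Ef, show v + e / 2 = v + f / 5 by rw [hf]; ring]
          linarith
        · have Ef : T e = 1 + T f / 5 := by rw [hf]; exact TM f0 f1
          have Tf := T_nonneg f0 f1
          rcases le_total v (3 / 5) with h2 | h2
          · obtain ⟨g, hg⟩ : ∃ g : ℝ, g = 5 * v - 2 := ⟨_, rfl⟩
            have ev' : v = (2 + g) / 5 := by rw [hg]; ring
            have g0 : 0 ≤ g := by linarith
            have g1 : g ≤ 1 := by linarith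
            have Eg : T v = 1 + T g / 5 := by rw [ev']; exact TM g0 g1
            rw [Ef, Eg, show v + e / 2 = (3 + 2 * ((f / 2 + g) / 2)) / 5 by rw [hf, ev']; ring,
              TR (by linarith) (by linarith)]
            have e1 := T_mid (y := f / 2) (z := g) (by linarith) (by linarith) g1
            have e2 := T_half f0 f1
            linarith
          · obtain ⟨g, hg⟩ : ∃ g : ℝ, g = (5 * v - 3) / 2 := ⟨_, rfl⟩
            have ev' : v = (3 + 2 * g) / 5 := by rw [hg]; ring
            have g0 : 0 ≤ g := by linarith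
            have g1 : g ≤ 1 := by linarith
            have Eg : T v = 1 - g + 2 / 5 * T g := by rw [ev']; exact TR g0 g1
            have Tg := T_nonneg g0 g1
            rw [Ef, Eg, show v + e / 2 = (3 + 2 * ((2 + 4 * g + f) / 4)) / 5 by
              rw [hf, ev']; ring, TR (by linarith) (by linarith)]
            have e1 := T_le (x := (2 + 4 * g + f) / 4) (by linarith) (by linarith)
            linarith
        · have Ef : T e = 1 - f + 2 / 5 * T f := by rw [hf]; exact TR f0 f1
          have Tf := T_nonneg f0 f1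
          obtain ⟨g, hg⟩ : ∃ g : ℝ, g = (5 * v - 3) / 2 := ⟨_, rfl⟩
          have ev' : v = (3 + 2 * g) / 5 := by rw [hg]; ring
          have g0 : 0 ≤ g := by linarith
          have g1 : g ≤ 1 := by linarith
          have Eg : T v = 1 - g + 2 / 5 * T g := by rw [ev']; exact TR g0 g1
          have Tg := T_nonneg g0 g1
          rw [Ef, Eg, ← T_symm, show 1 - (v + e / 2) = 2 / 5 * ((1 - 4 * g - 2 * f) / 4) by
            rw [hf, ev']; ring, TL (by linarith) (by linarith)]
          obtain ⟨k, hk⟩ : ∃ k : ℝ, k = (1 - 4 * g - 2 * f) / 4 * (5 / 2) := ⟨_, rfl⟩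
          have ek : (1 - 4 * g - 2 * f) / 4 = 2 / 5 * k := by rw [hk]; ring
          have k0 : 0 ≤ k := by linarith
          have k1 : k ≤ 1 := by linarith
          rw [ek, TL k0 k1]
          have e1 := T_le k0 k1
          linarith
      · rw [show 2 / 5 * v + e / 5 = (2 + (2 * v + e - 2)) / 5 by ring,
          TM (by linarith) (by linarith)]
        obtain ⟨γ, hγ⟩ : ∃ γ : ℝ, γ = 5 / 2 * (1 - v) := ⟨_, rfl⟩
        have ev' : 1 - v = 2 / 5 * γ := by rw [hγ]; ring
        have g0 : 0 ≤ γ := by linarith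
        have g1 : γ ≤ 1 := by linarith
        have Eg : T v = γ + 2 / 5 * T γ := by rw [← T_symm, ev']; exact TL g0 g1
        have s1 := hm (e := γ) (z := e) g0 g1 (by linarith) (by linarith)
        have s2 := hm (e := γ) (z := e - γ / 5) g0 g1 (by linarith) (by linarith)
        have s3 := hm (e := γ) (z := e - γ / 5 - γ / 5) g0 g1 (by linarith) (by linarith)
        have s4 := hm (e := γ) (z := e - γ / 5 - γ / 5 - γ / 5) g0 g1 (by linarith) (by linarith)
        rw [show e - γ / 5 - γ / 5 - γ / 5 - γ / 5 = 2 * v + e - 2 by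
          have : γ = 5 / 2 * (1 - v) := hγ
          rw [this]; ring] at s4
        rw [Eg]
        linarith
    · rintro ⟨⟨e, z⟩, he0, he1, hez, hz⟩
      simp only at he0 he1 hez hz ⊢
      have h1 := T_le (x := z + e / 5) (by linarith) (by linarith)
      have h2 := T_nonneg he0 he1
      have h3 := T_nonneg (x := z) (by linarith) (by linarith)
      linarith
  intro e z h0 h1 h2 h3
  have := key ⟨(e, z), h0, h1, h2, h3⟩
  simp only at this; linarith

end Pool.Agent.H27.F5
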