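import Pool.Agent.H27.F5.Core

/-!
# The three point inequality for `T`
-/

set_option autoImplicit false

namespace Pool.Agent.H27.F5

open Finset

lemma T_fifthm {e z : ℝ} (h0 : 0 ≤ e) (h1 : e ≤ 1) (h2 : 2 / 5 * e ≤ 1 - z) (h3 : e / 5 ≤ z) :
    T (z - e / 5) ≤ T z + T e / 5 := by
  have := T_fifth (e := e) (z := 1 - z) h0 h1 h2 (by linarith)
  rw [T_symm, show 1 - z + e / 5 = 1 - (z - e / 5) by ring, T_symm] at this
  exact this

lemma T_fifth4 {e z : ℝ} (h0 : 0 ≤ e) (h1 : e ≤ 1) (h2 : 2 / 5 * e ≤ z) (h3 : z + 4 / 5 * e ≤ 1) :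
    T (z + 4 / 5 * e) ≤ T z + 4 / 5 * T e := by
  have s1 := T_fifth (e := e) (z := z) h0 h1 (by linarith) (by linarith)
  have s2 := T_fifth (e := e) (z := z + e / 5) h0 h1 (by linarith) (by linarith)
  have s3 := T_fifth (e := e) (z := z + e / 5 + e / 5) h0 h1 (by linarith) (by linarith)
  have s4 := T_fifth (e := e) (z := z + e / 5 + e / 5 + e / 5) h0 h1 (by linarith) (by linarith)
  rw [show z + e / 5 + e / 5 + e / 5 + e / 5 = z + 4 / 5 * e by ring] at s4
  linarith

lemma T_fifth4m {e z : ℝ} (h0 : 0 ≤ e) (h1 : e ≤ 1) (h2 : 2 / 5 * e ≤ 1 - z)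
    (h3 : 4 / 5 * e ≤ z) : T (z - 4 / 5 * e) ≤ T z + 4 / 5 * T e := by
  have := T_fifth4 (e := e) (z := 1 - z) h0 h1 h2 (by linarith)
  rw [T_symm, show 1 - z + 4 / 5 * e = 1 - (z - 4 / 5 * e) by ring, T_symm] at this
  exact this

lemma P0 {y v : ℝ} (h0 : 0 ≤ y) (h1 : y ≤ v) (h2 : v ≤ 1) :
    T ((2 * v + y) / 5) ≤ (2 * T v + T y) / 5 + v := by
  have h := T_fifth (e := y) (z := 2 / 5 * v) h0 (by linarith) (by linarith) (by linarith)
  rw [TL (by linarith) h2, show 2 / 5 * v + y / 5 = (2 * v + y) / 5 by ring] at h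
  linarith

lemma P1 {y s : ℝ} (h0 : 0 ≤ s) (h1 : s ≤ y) (h2 : y ≤ 1) :
    T ((2 + y + 2 * s) / 5) ≤ (T y + 2 * T s) / 5 + (1 - s) := by
  have h := P0 (y := 1 - y) (v := 1 - s) (by linarith) (by linarith) (by linarith)
  rw [T_symm, T_symm, show (2 * (1 - s) + (1 - y)) / 5 = 1 - (2 + y + 2 * s) / 5 by ring,
    T_symm] at h
  linarith

/-- The three point inequality. -/
def RC3 (y1 y2 y3 : ℝ) : Prop :=
  T ((2 * y1 + y2 + 2 * y3) / 5) ≤ (2 * T y1 + T y2 + 2 * T y3) / 5 + (y1 - y3)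

lemma RC3.refl {y1 y2 y3 : ℝ} (h : RC3 (1 - y3) (1 - y2) (1 - y1)) : RC3 y1 y2 y3 := by
  unfold RC3 at *
  rw [show (2 * (1 - y3) + (1 - y2) + 2 * (1 - y1)) / 5 = 1 - (2 * y1 + y2 + 2 * y3) / 5 by ring,
    T_symm, T_symm, T_symm, T_symm] at h
  linarith

lemma c211 {u1 u2 u3 : ℝ} (a0 : 0 ≤ u1) (a1 : u1 ≤ 1) (b1 : u2 ≤ 1)
    (c0 : 0 ≤ u3) (c1 : u3 ≤ u2) : RC3 ((2 + u1) / 5) (2 / 5 * u2) (2 / 5 * u3) := by
  unfold RC3
  rw [TM a0 a1, TL (by linarith) b1, TL c0 (by linarith)]
  rcases le_total (u1 + u2 + 2 * u3) 3 with h | h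
  · rw [show (2 * ((2 + u1) / 5) + 2 / 5 * u2 + 2 * (2 / 5 * u3)) / 5
      = 2 / 5 * ((2 + (u1 + u2) + 2 * u3) / 5) by ring, TL (by linarith) (by linarith)]
    suffices T ((2 + (u1 + u2) + 2 * u3) / 5) ≤ 1 - u3 + (T u1 + T u2 + 2 * T u3) / 5 by linarith
    rcases le_total (u1 + u2) 1 with h1 | h1
    · have e1 := P1 (y := u1 + u2) (s := u3) c0 (by linarith) h1
      have e2 := T_add (a := u1) (b := u2) a0 (by linarith) h1
      linarith
    · have e1 := T_sub (a := u1) (b := 1 - u2) (by linarith) (by linarith) a1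
      rw [T_symm] at e1
      have e2 := T_half (z := u1 - (1 - u2)) (by linarith) (by linarith)
      have e3 := T_add (a := u3) (b := (u1 - (1 - u2)) / 2) c0 (by linarith) (by linarith)
      rw [show (2 + (u1 + u2) + 2 * u3) / 5 = (3 + 2 * (u3 + (u1 - (1 - u2)) / 2)) / 5 by ring,
        TR (by linarith) (by linarith)]
      linarith
  · rw [show (2 * ((2 + u1) / 5) + 2 / 5 * u2 + 2 * (2 / 5 * u3)) / 5
      = (2 + 2 / 5 * (u1 - (1 - u2) - (1 - u3) - (1 - u3))) / 5 by ring,
      TM (by linarith) (by linarith), TL (by linarith) (by linarith)]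
    have e1 := T_sub (a := u1) (b := 1 - u2) (by linarith) (by linarith) a1
    rw [T_symm] at e1
    have e2 := T_sub (a := u1 - (1 - u2)) (b := 1 - u3) (by linarith) (by linarith) (by linarith)
    rw [T_symm] at e2
    have e3 := T_sub (a := u1 - (1 - u2) - (1 - u3)) (b := 1 - u3) (by linarith) (by linarith)
      (by linarith)
    rw [T_symm] at e3
    linarith

lemma c221 {u1 u2 u3 : ℝ} (a1 : u1 ≤ 1) (b0 : 0 ≤ u2) (b1 : u2 ≤ u1)
    (c0 : 0 ≤ u3) (c1 : u3 ≤ 1) : RC3 ((2 + u1) / 5) ((2 + u2) / 5) (2 / 5 * u3) := by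
  unfold RC3
  rw [TM (by linarith) a1, TM b0 (by linarith), TL c0 (by linarith)]
  rcases le_total (2 * u1 + u2 + 4 * u3) 4 with h | h
  · rw [show (2 * ((2 + u1) / 5) + (2 + u2) / 5 + 2 * (2 / 5 * u3)) / 5
      = 2 / 5 * ((3 + 2 * (u3 + (u2 / 2 + u1) / 2)) / 5) by ring, TL (by linarith) (by linarith),
      TR (by linarith) (by linarith)]
    have e1 := T_half (z := u2) b0 (by linarith)
    have e2 := T_mid (y := u2 / 2) (z := u1) (by linarith) (by linarith) a1
    have e3 := T_add (a := u3) (b := (u2 / 2 + u1) / 2) c0 (by linarith) (by linarith)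
    linarith
  · rw [show (2 * ((2 + u1) / 5) + (2 + u2) / 5 + 2 * (2 / 5 * u3)) / 5
      = (2 + ((2 * u1 + u2) / 5 - 4 / 5 * (1 - u3))) / 5 by ring,
      TM (by linarith) (by linarith)]
    have e1 := P0 (y := u2) (v := u1) b0 b1 a1
    have e2 := T_fifth4m (e := 1 - u3) (z := (2 * u1 + u2) / 5) (by linarith) (by linarith)
      (by linarith) (by linarith)
    rw [T_symm] at e2
    linarith

lemma c311 {u1 u2 u3 : ℝ} (a0 : 0 ≤ u1) (a1 : u1 ≤ 1) (b1 : u2 ≤ 1)
    (c0 : 0 ≤ u3) (c1 : u3 ≤ u2) : RC3 ((3 + 2 * u1) / 5) (2 / 5 * u2) (2 / 5 * u3) := by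
  unfold RC3
  rw [TR a0 a1, TL (by linarith) b1, TL c0 (by linarith)]
  have Tu1 := T_nonneg a0 a1
  have Tu2 := T_nonneg (x := u2) (by linarith) b1
  have Tu3 := T_nonneg (x := u3) c0 (by linarith)
  rcases le_total (2 * u1 + u2 + 2 * u3) 2 with h | h
  · rw [show (2 * ((3 + 2 * u1) / 5) + 2 / 5 * u2 + 2 * (2 / 5 * u3)) / 5
      = 2 / 5 * ((3 + 2 * (u1 + (u3 + u2 / 2))) / 5) by ring, TL (by linarith) (by linarith),
      TR (by linarith) (by linarith)]
    have e1 := T_half (z := u2) (by linarith) b1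
    have e2 := T_add (a := u3) (b := u2 / 2) c0 (by linarith) (by linarith)
    have e3 := T_add (a := u1) (b := u3 + u2 / 2) a0 (by linarith) (by linarith)
    linarith
  rcases le_total (4 * u1 + 2 * u2 + 4 * u3) 9 with h' | h'
  · have e0 := TL (u := u2) (by linarith) b1
    rcases le_total 1 (u1 + u3) with h1 | h1
    · rw [show (2 * ((3 + 2 * u1) / 5) + 2 / 5 * u2 + 2 * (2 / 5 * u3)) / 5
        = (2 + (2 / 5 * u2 + 4 / 5 * (u1 - (1 - u3)))) / 5 by ring,
        TM (by linarith) (by linarith)]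
      have e1 := T_sub (a := u1) (b := 1 - u3) (by linarith) (by linarith) a1
      rw [T_symm] at e1
      have e2 := T_fifth4 (e := u1 - (1 - u3)) (z := 2 / 5 * u2) (by linarith) (by linarith)
        (by linarith) (by linarith)
      linarith
    · rw [show (2 * ((3 + 2 * u1) / 5) + 2 / 5 * u2 + 2 * (2 / 5 * u3)) / 5
        = (2 + (2 / 5 * u2 - 4 / 5 * (1 - (u1 + u3)))) / 5 by ring,
        TM (by linarith) (by linarith)]
      have e1 := T_add (a := u1) (b := u3) a0 c0 h1
      have e2 := T_fifth4m (e := 1 - (u1 + u3)) (z := 2 / 5 * u2) (by linarith) (by linarith)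
        (by linarith) (by linarith)
      rw [T_symm] at e2
      linarith
  · obtain ⟨ξ, hξ⟩ : ∃ ξ : ℝ, ξ = (4 * u1 + 2 * u2 + 4 * u3 - 9) / 4 := ⟨_, rfl⟩
    rw [show (2 * ((3 + 2 * u1) / 5) + 2 / 5 * u2 + 2 * (2 / 5 * u3)) / 5
        = (3 + 2 * (2 / 5 * ξ)) / 5 by rw [hξ]; ring,
        TR (by linarith) (by linarith), TL (by linarith) (by linarith)]
    have e1 := TL (u := 5 / 2 * ξ) (by linarith) (by linarith)
    rw [show 2 / 5 * (5 / 2 * ξ) = ξ by ring] at e1
    have e2 := T_le (x := 5 / 2 * ξ) (by linarith) (by linarith)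
    linarith

/-! ### Subadditivity modulo one -/

lemma TF_add (x y : ℝ) : T (Int.fract (x + y)) ≤ T (Int.fract x) + T (Int.fract y) := by
  have x0 := Int.fract_nonneg x
  have y0 := Int.fract_nonneg y
  have x1 := Int.fract_lt_one x
  have y1 := Int.fract_lt_one y
  rcases lt_or_ge (Int.fract x + Int.fract y) 1 with h | h
  · have : Int.fract (x + y) = Int.fract x + Int.fract y := by
      rw [Int.fract_eq_iff]
      refine ⟨by linarith, h, ⌊x⌋ + ⌊y⌋, ?_⟩
      push_cast
      have := Int.floor_add_fract x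
      have := Int.floor_add_fract y
      linarith
    rw [this]
    exact T_add x0 y0 h.le
  · have : Int.fract (x + y) = Int.fract x - (1 - Int.fract y) := by
      rw [Int.fract_eq_iff]
      refine ⟨by linarith, by linarith, ⌊x⌋ + ⌊y⌋ + 1, ?_⟩
      push_cast
      have := Int.floor_add_fract x
      have := Int.floor_add_fract y
      linarith
    rw [this]
    have e := T_sub (a := Int.fract x) (b := 1 - Int.fract y) (by linarith) (by linarith) x1.le
    rw [T_symm] at e
    exact e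

lemma TF_self {u : ℝ} (h0 : 0 ≤ u) (h1 : u ≤ 1) : T (Int.fract u) = T u := by
  rcases h1.lt_or_eq with h | h
  · rw [Int.fract_eq_self.2 ⟨h0, h⟩]
  · rw [h, Int.fract_one, T_zero, T_one]

lemma E1_half {w : ℝ} (h0 : 0 ≤ w) (h1 : w ≤ 1 / 2) : T w ≤ 1 + T (Int.fract (5 * w)) / 5 := by
  have hf := T_nonneg (Int.fract_nonneg (5 * w)) (Int.fract_lt_one (5 * w)).le
  rcases le_total w (1 / 5) with h | h
  · have e1 := TL (u := 5 / 2 * w) (by linarith) (by linarith)
    rw [show 2 / 5 * (5 / 2 * w) = w by ring] at e1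
    have e2 := T_le (x := 5 / 2 * w) (by linarith) (by linarith)
    linarith
  rcases le_total w (2 / 5) with h' | h'
  · obtain ⟨f, hf'⟩ : ∃ f : ℝ, f = 5 * w - 1 := ⟨_, rfl⟩
    have ew : w = 2 / 5 * (1 - (1 - f) / 2) := by rw [hf']; ring
    have ef : Int.fract (5 * w) = Int.fract f := by
      rw [hf', show (5 * w - 1 : ℝ) = 5 * w - ((1 : ℤ) : ℝ) by push_cast; ring,
        Int.fract_sub_intCast]
    rw [ef, TF_self (by linarith) (by linarith), ew, TL (by linarith) (by linarith), T_symm]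
    have e := T_half (z := 1 - f) (by linarith) (by linarith)
    rw [T_symm] at e
    linarith
  · obtain ⟨f, hf'⟩ : ∃ f : ℝ, f = 5 * w - 2 := ⟨_, rfl⟩
    have ew : w = (2 + f) / 5 := by rw [hf']; ring
    have ef : Int.fract (5 * w) = Int.fract f := by
      rw [hf', show (5 * w - 2 : ℝ) = 5 * w - ((2 : ℤ) : ℝ) by push_cast; ring,
        Int.fract_sub_intCast]
    rw [ef, TF_self (by linarith) (by linarith), ew, TM (by linarith) (by linarith)]

lemma TF_neg (x : ℝ) : T (Int.fract (-x)) = T (Int.fract x) := by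
  by_cases h : Int.fract x = 0
  · rw [Int.fract_neg_eq_zero.2 h, h]
  · rw [Int.fract_neg h, T_symm]

lemma E1 {w : ℝ} (h0 : 0 ≤ w) (h1 : w ≤ 1) : T w ≤ 1 + T (Int.fract (5 * w)) / 5 := by
  rcases le_total w (1 / 2) with h | h
  · exact E1_half h0 h
  · have := E1_half (w := 1 - w) (by linarith) (by linarith)
    rw [T_symm, show 5 * (1 - w) = -(5 * w) + ((5 : ℤ) : ℝ) by push_cast; ring,
      Int.fract_add_intCast, TF_neg] at this
    exact this

lemma T_near_one {w : ℝ} (h0 : 4 / 5 ≤ w) (h1 : w ≤ 1) : w + 2 / 5 * T w ≤ 6 / 5 := by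
  have e1 := TL (u := 5 / 2 * (1 - w)) (by linarith) (by linarith)
  rw [show 2 / 5 * (5 / 2 * (1 - w)) = 1 - w by ring, T_symm] at e1
  have e2 := T_le (x := 5 / 2 * (1 - w)) (by linarith) (by linarith)
  linarith

lemma c321 {u1 u2 u3 : ℝ} (a0 : 0 ≤ u1) (a1 : u1 ≤ 1) (b0 : 0 ≤ u2) (b1 : u2 ≤ 1)
    (c0 : 0 ≤ u3) (c1 : u3 ≤ 1) : RC3 ((3 + 2 * u1) / 5) ((2 + u2) / 5) (2 / 5 * u3) := by
  unfold RC3
  rw [TR a0 a1, TM b0 b1, TL c0 c1]
  have Tu1 := T_nonneg a0 a1
  have Tu2 := T_nonneg b0 b1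
  have Tu3 := T_nonneg c0 c1
  obtain ⟨q, hq⟩ : ∃ q : ℝ, q = 4 * u1 + u2 + 4 * u3 := ⟨_, rfl⟩
  have ex : (2 * ((3 + 2 * u1) / 5) + (2 + u2) / 5 + 2 * (2 / 5 * u3)) / 5 = (8 + q) / 25 := by
    rw [hq]; ring
  rw [ex]
  rcases le_total q 2 with h | h
  · rw [show (8 + q) / 25 = 2 / 5 * ((8 + q) / 10) by ring, TL (by linarith) (by linarith)]
    have := T_near_one (w := (8 + q) / 10) (by linarith) (by linarith)
    linarith
  rcases le_total 7 q with h' | h'
  · rw [← T_symm, show 1 - (8 + q) / 25 = 2 / 5 * ((17 - q) / 10) by ring,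
      TL (by linarith) (by linarith)]
    have := T_near_one (w := (17 - q) / 10) (by linarith) (by linarith)
    linarith
  · rw [show (8 + q) / 25 = (2 + (q - 2) / 5) / 5 by ring, TM (by linarith) (by linarith)]
    have e1 := E1 (w := (q - 2) / 5) (by linarith) (by linarith)
    rw [show 5 * ((q - 2) / 5) = q - ((2 : ℤ) : ℝ) by push_cast; ring,
      Int.fract_sub_intCast] at e1
    have e2 : T (Int.fract q) ≤ 4 * T u1 + T u2 + 4 * T u3 := by
      have s1 := TF_add u1 u1
      have s2 := TF_add (u1 + u1) (u1 + u1)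
      have s3 := TF_add u3 u3
      have s4 := TF_add (u3 + u3) (u3 + u3)
      have s5 := TF_add (u1 + u1 + (u1 + u1)) u2
      have s6 := TF_add (u1 + u1 + (u1 + u1) + u2) (u3 + u3 + (u3 + u3))
      rw [show u1 + u1 + (u1 + u1) + u2 + (u3 + u3 + (u3 + u3)) = q by rw [hq]; ring] at s6
      rw [TF_self a0 a1] at s1
      rw [TF_self c0 c1] at s3
      rw [TF_self b0 b1] at s5
      linarith
    linarith

/-! ### The three point inequality -/

/-- Ordered triples. -/
abbrev Q3 : Type := {p : ℝ × ℝ × ℝ // 0 ≤ p.2.2 ∧ p.2.2 ≤ p.2.1 ∧ p.2.1 ≤ p.1 ∧ p.1 ≤ 1}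

theorem rcp : ∀ {y1 y2 y3 : ℝ}, 0 ≤ y3 → y3 ≤ y2 → y2 ≤ y1 → y1 ≤ 1 → RC3 y1 y2 y3 := by
  have key : ∀ p : Q3, T ((2 * p.1.1 + p.1.2.1 + 2 * p.1.2.2) / 5)
      - (2 * T p.1.1 + T p.1.2.1 + 2 * T p.1.2.2) / 5 - (p.1.1 - p.1.2.2) ≤ 0 := by
    apply contract (M := 2) (l := 2 / 5) _ (by norm_num) (by norm_num)
    · intro c hc h
      have h' : ∀ {y1 y2 y3 : ℝ}, 0 ≤ y3 → y3 ≤ y2 → y2 ≤ y1 → y1 ≤ 1 →
          T ((2 * y1 + y2 + 2 * y3) / 5) ≤ (2 * T y1 + T y2 + 2 * T y3) / 5 + (y1 - y3) + c :=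
        fun {y1 y2 y3} h0 h1 h2 h3 => by
          have := h ⟨(y1, y2, y3), h0, h1, h2, h3⟩; simp only at this; linarith
      have fin : ∀ {y1 y2 y3 : ℝ}, RC3 y1 y2 y3 → T ((2 * y1 + y2 + 2 * y3) / 5)
          - (2 * T y1 + T y2 + 2 * T y3) / 5 - (y1 - y3) ≤ 2 / 5 * c := by
        intro y1 y2 y3 hh
        unfold RC3 at hh
        linarith
      rintro ⟨⟨y1, y2, y3⟩, h0, h1, h2, h3⟩
      simp only at h0 h1 h2 h3 ⊢
      -- coordinates
      have cL : ∀ {y : ℝ}, y = 2 / 5 * (5 / 2 * y) := fun {y} => by ring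
      have cM : ∀ {y : ℝ}, y = (2 + (5 * y - 2)) / 5 := fun {y} => by ring
      have cR : ∀ {y : ℝ}, y = (3 + 2 * ((5 * y - 3) / 2)) / 5 := fun {y} => by ring
      rcases le_total y1 (2 / 5) with A1 | A1
      · -- LLL
        have k := h' (y1 := 5 / 2 * y1) (y2 := 5 / 2 * y2) (y3 := 5 / 2 * y3) (by linarith)
          (by linarith) (by linarith) (by linarith)
        have e1 := TL (u := 5 / 2 * y1) (by linarith) (by linarith)
        have e2 := TL (u := 5 / 2 * y2) (by linarith) (by linarith)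
        have e3 := TL (u := 5 / 2 * y3) (by linarith) (by linarith)
        have e4 := TL (u := (2 * (5 / 2 * y1) + 5 / 2 * y2 + 2 * (5 / 2 * y3)) / 5)
          (by linarith) (by linarith)
        rw [← cL] at e1 e2 e3
        rw [show 2 / 5 * ((2 * (5 / 2 * y1) + 5 / 2 * y2 + 2 * (5 / 2 * y3)) / 5)
          = (2 * y1 + y2 + 2 * y3) / 5 by ring] at e4
        rw [e1, e2, e3, e4]
        linarith
      rcases le_total (3 / 5) y3 with A3 | A3
      · -- RRR
        have k := h' (y1 := (5 * y1 - 3) / 2) (y2 := (5 * y2 - 3) / 2) (y3 := (5 * y3 - 3) / 2)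
          (by linarith) (by linarith) (by linarith) (by linarith)
        have e1 := TR (u := (5 * y1 - 3) / 2) (by linarith) (by linarith)
        have e2 := TR (u := (5 * y2 - 3) / 2) (by linarith) (by linarith)
        have e3 := TR (u := (5 * y3 - 3) / 2) (by linarith) (by linarith)
        have e4 := TR (u := (2 * ((5 * y1 - 3) / 2) + (5 * y2 - 3) / 2
          + 2 * ((5 * y3 - 3) / 2)) / 5) (by linarith) (by linarith)
        rw [← cR] at e1 e2 e3
        rw [show (3 + 2 * ((2 * ((5 * y1 - 3) / 2) + (5 * y2 - 3) / 2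
          + 2 * ((5 * y3 - 3) / 2)) / 5)) / 5 = (2 * y1 + y2 + 2 * y3) / 5 by ring] at e4
        rw [e1, e2, e3, e4]
        linarith
      rcases le_total y2 (2 / 5) with B1 | B1
      · rcases le_total y1 (3 / 5) with A2 | A2
        · -- MLL
          apply fin
          rw [cM (y := y1), cL (y := y2), cL (y := y3)]
          exact c211 (by linarith) (by linarith) (by linarith) (by linarith) (by linarith)
        · -- RLL
          apply fin
          rw [cR (y := y1), cL (y := y2), cL (y := y3)]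
          exact c311 (by linarith) (by linarith) (by linarith) (by linarith) (by linarith)
      rcases le_total (3 / 5) y2 with B3 | B3
      · rcases le_total (2 / 5) y3 with C2 | C2
        · -- RRM
          apply fin
          apply RC3.refl
          rw [cM (y := 1 - y3), cL (y := 1 - y2), cL (y := 1 - y1)]
          exact c211 (by linarith) (by linarith) (by linarith) (by linarith) (by linarith)
        · -- RRL
          apply fin
          apply RC3.refl
          rw [cR (y := 1 - y3), cL (y := 1 - y2), cL (y := 1 - y1)]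
          exact c311 (by linarith) (by linarith) (by linarith) (by linarith) (by linarith)
      -- y2 in the middle cell
      rcases le_total y1 (3 / 5) with A2 | A2
      · rcases le_total y3 (2 / 5) with C1 | C1
        · -- MML
          apply fin
          rw [cM (y := y1), cM (y := y2), cL (y := y3)]
          exact c221 (by linarith) (by linarith) (by linarith) (by linarith) (by linarith)
        · -- MMM
          have k := h' (y1 := 5 * y1 - 2) (y2 := 5 * y2 - 2) (y3 := 5 * y3 - 2) (by linarith)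
            (by linarith) (by linarith) (by linarith)
          have e1 := TM (u := 5 * y1 - 2) (by linarith) (by linarith)
          have e2 := TM (u := 5 * y2 - 2) (by linarith) (by linarith)
          have e3 := TM (u := 5 * y3 - 2) (by linarith) (by linarith)
          have e4 := TM (u := (2 * (5 * y1 - 2) + (5 * y2 - 2) + 2 * (5 * y3 - 2)) / 5)
            (by linarith) (by linarith)
          rw [← cM] at e1 e2 e3
          rw [show (2 + (2 * (5 * y1 - 2) + (5 * y2 - 2) + 2 * (5 * y3 - 2)) / 5) / 5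
            = (2 * y1 + y2 + 2 * y3) / 5 by ring] at e4
          rw [e1, e2, e3, e4]
          linarith
      · rcases le_total y3 (2 / 5) with C1 | C1
        · -- RML
          apply fin
          rw [cR (y := y1), cM (y := y2), cL (y := y3)]
          exact c321 (by linarith) (by linarith) (by linarith) (by linarith) (by linarith)
            (by linarith)
        · -- RMM
          apply fin
          apply RC3.refl
          rw [cM (y := 1 - y3), cM (y := 1 - y2), cL (y := 1 - y1)]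
          exact c221 (by linarith) (by linarith) (by linarith) (by linarith) (by linarith)
    · rintro ⟨⟨y1, y2, y3⟩, h0, h1, h2, h3⟩
      simp only at h0 h1 h2 h3 ⊢
      have k1 := T_le (x := (2 * y1 + y2 + 2 * y3) / 5) (by linarith) (by linarith)
      have k2 := T_nonneg (x := y1) (by linarith) h3
      have k3 := T_nonneg (x := y2) (by linarith) (by linarith)
      have k4 := T_nonneg (x := y3) (by linarith) (by linarith)
      linarith
  intro y1 y2 y3 h0 h1 h2 h3
  have := key ⟨(y1, y2, y3), h0, h1, h2, h3⟩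
  simp only at this
  unfold RC3
  linarith

end Pool.Agent.H27.F5
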