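import Pool.Agent.H27.F5.Rcp

/-!
# `F 5 = T`
-/

set_option autoImplicit false

namespace Pool.Agent.H27.F5

open Finset

theorem relaxedConvex_T : RelaxedConvex 5 T := by
  intro x hx hmono
  have a0 := hx 0 (by norm_num)
  have a1 := hx 1 (by norm_num)
  have a2 := hx 2 (by norm_num)
  have a3 := hx 3 (by norm_num)
  have a4 := hx 4 (by norm_num)
  have m01 := hmono 0 1 (by norm_num) (by norm_num)
  have m12 := hmono 1 2 (by norm_num) (by norm_num)
  have m23 := hmono 2 3 (by norm_num) (by norm_num)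
  have m34 := hmono 3 4 (by norm_num) (by norm_num)
  have h := rcp (y1 := (x 3 + x 4) / 2) (y2 := x 2) (y3 := (x 0 + x 1) / 2) (by linarith)
    (by linarith) (by linarith) (by linarith)
  unfold RC3 at h
  have h1 := T_mid (y := x 3) (z := x 4) a3.1 m34 a4.2
  have h2 := T_mid (y := x 0) (z := x 1) a0.1 m01 a1.2
  simp only [Finset.sum_range_succ, Finset.sum_range_zero, zero_add]
  push_cast
  rw [show (2 * ((x 3 + x 4) / 2) + x 2 + 2 * ((x 0 + x 1) / 2)) / 5
    = (x 0 + x 1 + x 2 + x 3 + x 4) / 5 by ring] at h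
  linarith

theorem inClass_T : InClass 5 T :=
  ⟨T_zero.le, T_one.le, ⟨5 / 4, fun _ h0 h1 => T_le h0 h1⟩, relaxedConvex_T⟩

/-- The five points `(a,a,a,b,b)`, etc.: the relaxed convexity for nondecreasing values. -/
lemma five {f : ℝ → ℝ} (h : RelaxedConvex 5 f) {a b c d e : ℝ} (ha : 0 ≤ a) (hab : a ≤ b)
    (hbc : b ≤ c) (hcd : c ≤ d) (hde : d ≤ e) (he : e ≤ 1) :
    f ((a + b + c + d + e) / 5) ≤ (f a + f b + f c + f d + f e) / 5 + (e - a) := by
  obtain ⟨x, hx⟩ : ∃ x : ℕ → ℝ, x = fun i => if i = 0 then a else if i = 1 then b else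
    if i = 2 then c else if i = 3 then d else e := ⟨_, rfl⟩
  have x0 : x 0 = a := by rw [hx]; rfl
  have x1 : x 1 = b := by rw [hx]; rfl
  have x2 : x 2 = c := by rw [hx]; rfl
  have x3 : x 3 = d := by rw [hx]; rfl
  have x4 : x 4 = e := by rw [hx]; rfl
  have key := h x (by
    intro i hi
    interval_cases i
    · rw [x0]; constructor <;> linarith
    · rw [x1]; constructor <;> linarith
    · rw [x2]; constructor <;> linarith
    · rw [x3]; constructor <;> linarith
    · rw [x4]; constructor <;> linarith) (by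
    intro i j hij hj
    interval_cases j <;> interval_cases i <;> simp only [x0, x1, x2, x3, x4] <;> linarith)
  simp only [Finset.sum_range_succ, Finset.sum_range_zero, zero_add,
    x0, x1, x2, x3, show (5 - 1 : ℕ) = 4 from rfl, x4] at key
  push_cast at key
  exact key

theorem le_T {f : ℝ → ℝ} (hf : InClass 5 f) : ∀ {x : ℝ}, 0 ≤ x → x ≤ 1 → f x ≤ T x := by
  obtain ⟨f0, f1, ⟨M, hM⟩, hc⟩ := hf
  have key : ∀ a : I, f a - T a ≤ 0 := by
    apply contract (M := M) (l := 2 / 5) _ (by norm_num) (by norm_num)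
    · intro c hc0 h a
      have h' : ∀ {x : ℝ}, 0 ≤ x → x ≤ 1 → f x ≤ T x + c := fun {x} h0 h1 => by
        have := h ⟨x, h0, h1⟩; simp only at this; linarith
      rcases cells a.2.1 a.2.2 with ⟨u, u0, u1, hu⟩ | ⟨u, u0, u1, hu⟩ | ⟨u, u0, u1, hu⟩
      · have k := five hc (a := 0) (b := 0) (c := 0) (d := u) (e := u) le_rfl le_rfl le_rfl u0
          le_rfl u1
        rw [show (0 + 0 + 0 + u + u) / 5 = 2 / 5 * u by ring] at k
        have := h' u0 u1
        rw [hu, TL u0 u1]
        linarith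
      · have k := five hc (a := 0) (b := 0) (c := u) (d := 1) (e := 1) le_rfl le_rfl u0 u1
          le_rfl le_rfl
        rw [show (0 + 0 + u + 1 + 1) / 5 = (2 + u) / 5 by ring] at k
        have := h' u0 u1
        rw [hu, TM u0 u1]
        linarith
      · have k := five hc (a := u) (b := u) (c := 1) (d := 1) (e := 1) u0 le_rfl u1 le_rfl
          le_rfl le_rfl
        rw [show (u + u + 1 + 1 + 1) / 5 = (3 + 2 * u) / 5 by ring] at k
        have := h' u0 u1
        rw [hu, TR u0 u1]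
        linarith
    · intro a
      have := hM a a.2.1 a.2.2
      have := T_nonneg a.2.1 a.2.2
      linarith
  intro x h0 h1
  have := key ⟨x, h0, h1⟩
  simp only at this; linarith

theorem isGreatest_T {x : ℝ} (h0 : 0 ≤ x) (h1 : x ≤ 1) :
    IsGreatest {y : ℝ | ∃ f : ℝ → ℝ, InClass 5 f ∧ y = f x} (T x) :=
  ⟨⟨T, inClass_T, rfl⟩, by rintro y ⟨f, hf, rfl⟩; exact le_T hf h0 h1⟩

theorem F_eq {x : ℝ} (h0 : 0 ≤ x) (h1 : x ≤ 1) : F 5 x = T x :=
  (isGreatest_T h0 h1).csSup_eq

end Pool.Agent.H27.F5
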